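import Pool.Agent.R901.WR.C4

/-!
# MP_6a29fd_al: law probabilities of lazy random walks need not converge
-/

open Filter Topology
open scoped commutatorElement Pointwise

namespace Pool.Agent.Results.MP_6a29fd_al.LazyLawOscillates

/-- `lazyProb S w n`: the probability that `w = 1` holds for `d` independent lazy random walks
with respect to the finite set `S` at time `n`. A step is described by `none` (stay, probability
`1/2`) or by `some s` with `s ∈ S` (multiply by `s`, probability `1 / (2 |S|)`); the sum runs over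
the `d`-tuples of sequences of `n` steps. -/
noncomputable def lazyProb {G : Type} [Group G] (S : Set G) {d : ℕ} (w : FreeGroup (Fin d))
    (n : ℕ) : ℝ :=
  open Classical in
  ∑ᶠ t : Fin d → Fin n → Option ↥S,
    (∏ i, ∏ k, (t i k).elim (1 / 2 : ℝ) fun _ => 1 / (2 * (Nat.card ↥S : ℝ))) *
    (if FreeGroup.lift (fun i => (List.ofFn fun k => (t i k).elim 1 fun s => (s : G)).prod) w = 1
      then 1 else 0)

open Pool.Agent.R901.WR Pool.Agent.R901.WR.Osc

/-- the ambient group -/
abbrev W := Wr (ℕ → L3) (Fin 6 → ℤ)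

/-- the group -/
abbrev G := ↥(Subgroup.closure (Set.range (stepH hinf sgv)))

/-- the generating set -/
def S : Set G := {g | (g : W) ∈ Set.range (stepH hinf sgv)}

/-- the elements of `S` correspond to the indices -/
noncomputable def e : Ix ≃ ↥S := Equiv.ofBijective
  (fun x => (⟨⟨stepH hinf sgv x, Subgroup.subset_closure ⟨x, rfl⟩⟩, ⟨x, rfl⟩⟩ : ↥S)) (by
    constructor
    · intro x y h
      apply stepH_inj
      have := congrArg (fun s : ↥S => ((s : G) : W)) h
      exact this
    · rintro ⟨g, ⟨x, hx⟩⟩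
      exact ⟨x, Subtype.ext (Subtype.ext hx)⟩)

lemma e_coe (x : Ix) : (((e x : ↥S) : G) : W) = stepH hinf sgv x := rfl

lemma S_finite : S.Finite := Finite.of_equiv _ e

lemma card_S : (Nat.card ↥S : ℝ) = 256 := by
  rw [← Nat.card_congr e, Nat.card_eq_fintype_card]
  simp

/-- the walk on `G` -/
noncomputable def DS : Pool.Agent.R901.WR.Dist G :=
  letI : Fintype ↥S := S_finite.fintype
  { ι := Option ↥S
    fi := inferInstance
    p := fun o => o.elim (1 / 2 : ℝ) fun _ => 1 / (2 * (Nat.card ↥S : ℝ))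
    st := fun o => o.elim 1 fun s => (s : G)
    nn := by
      rintro (_ | x)
      · simp
      · simp only [Option.elim]
        positivity
    one := by
      rw [Fintype.sum_option]
      simp only [Option.elim, Finset.sum_const, Finset.card_univ, nsmul_eq_mul]
      rw [← Nat.card_eq_fintype_card, card_S]
      norm_num }

lemma lazy_eq {d : ℕ} (w : FreeGroup (Fin d)) (n : ℕ) : lazyProb S w n = DI.lawProb w n := by
  classical
  letI : Fintype ↥S := S_finite.fintype
  have h1 : lazyProb S w n = DS.lawProb w n := by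
    unfold lazyProb
    rw [finsum_eq_sum_of_fintype]
    rfl
  rw [h1, ← Pool.Agent.R901.WR.Dist.lawProb_map (Subgroup.subtype _) Subtype.val_injective]
  refine Pool.Agent.R901.WR.Dist.lawProb_congr (fun F => ?_) w n
  rw [Pool.Agent.R901.WR.Dist.E_map]
  have h2 : DS.E (fun g => F ((Subgroup.subtype _) g)) = ∑ o : Option ↥S,
      (o.elim (1 / 2 : ℝ) fun _ => 1 / (2 * (Nat.card ↥S : ℝ))) *
        F ((o.elim 1 fun s => (s : G) : G) : W) := rfl
  have h3 : DI.E F = ∑ o : Option Ix,
      (o.elim (1 / 2 : ℝ) fun _ => 1 / 512) * F (o.elim 1 (stepH hinf sgv)) := rfl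
  have h4 : ∑ x : Ix, (1 / 512 : ℝ) * F (stepH hinf sgv x) =
      ∑ s : ↥S, (1 / (2 * (Nat.card ↥S : ℝ))) * F ((s : G) : W) := by
    refine Fintype.sum_equiv e _ _ fun x => ?_
    rw [card_S, e_coe]
    norm_num
  have h5 : ∑ o : Option ↥S,
      (o.elim (1 / 2 : ℝ) fun _ => 1 / (2 * (Nat.card ↥S : ℝ))) *
        F ((o.elim 1 fun s => (s : G) : G) : W) = (1 / 2 : ℝ) * F ((1 : G) : W) +
        ∑ s : ↥S, (1 / (2 * (Nat.card ↥S : ℝ))) * F ((s : G) : W) :=
    Fintype.sum_option _
  have h6 : ∑ o : Option Ix,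
      (o.elim (1 / 2 : ℝ) fun _ => 1 / 512) * F (o.elim 1 (stepH hinf sgv)) =
      (1 / 2 : ℝ) * F 1 + ∑ x : Ix, (1 / 512 : ℝ) * F (stepH hinf sgv x) :=
    Fintype.sum_option _
  rw [h2, h3, h5, h6, h4, Subgroup.coe_one]

/-- **MP_6a29fd_al, Q1: such groups exist.** There are a group `G`, a finite symmetric generating
set `S` and a word `w` such that the probability that `w = 1` holds for independent lazy random
walks does not converge: its limit superior is `1` and its limit inferior is at most `31/32`. -/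
theorem result : ∃ (G : Type) (_ : Group G) (S : Set G) (w : FreeGroup (Fin 5)),
    S.Finite ∧ S⁻¹ = S ∧ Subgroup.closure S = ⊤ ∧
    liminf (fun n => lazyProb S w n) atTop ≤ 31 / 32 ∧
    limsup (fun n => lazyProb S w n) atTop = 1 ∧
    (∃ᶠ n in atTop, lazyProb S w n < 31 / 32) ∧
    (∀ ε : ℝ, 0 < ε → ∃ᶠ n in atTop, 1 - ε < lazyProb S w n) ∧
    ¬ ∃ l, Tendsto (fun n => lazyProb S w n) atTop (𝓝 l) := by
  have hlow : ∃ᶠ n in atTop, lazyProb S w5 n < 31 / 32 := by
    rw [frequently_atTop]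
    intro a
    refine ⟨(Osc.sq (a + 1)).m, sq_m_ge a, ?_⟩
    rw [lazy_eq]
    exact DI_low a
  have hhigh : ∀ ε : ℝ, 0 < ε → ∃ᶠ n in atTop, 1 - ε < lazyProb S w5 n := by
    intro ε hε
    rw [frequently_atTop]
    intro a
    obtain ⟨k, hk⟩ := exists_nat_one_div_lt hε
    refine ⟨(Osc.sq (max a k + 1)).n, (le_max_left a k).trans (sq_n_ge _), ?_⟩
    rw [lazy_eq]
    have h1 := DI_high (max a k)
    have h2 : 1 / (((max a k : ℕ) : ℝ) + 1) ≤ 1 / ((k : ℝ) + 1) := by
      have : (k : ℝ) ≤ ((max a k : ℕ) : ℝ) := by exact_mod_cast le_max_right a k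
      gcongr
    linarith
  have hle : ∀ n, lazyProb S w5 n ≤ 1 := fun n => by
    rw [lazy_eq]; exact Pool.Agent.R901.WR.Dist.lawProb_le_one _ _ _
  have hge : ∀ n, 0 ≤ lazyProb S w5 n := fun n => by
    rw [lazy_eq]; exact Pool.Agent.R901.WR.Dist.lawProb_nonneg _ _ _
  have hbdd : IsBoundedUnder (· ≤ ·) atTop (fun n => lazyProb S w5 n) :=
    isBoundedUnder_of ⟨1, hle⟩
  have hbdd' : IsBoundedUnder (· ≥ ·) atTop (fun n => lazyProb S w5 n) :=
    isBoundedUnder_of ⟨0, hge⟩
  have hsup : limsup (fun n => lazyProb S w5 n) atTop = 1 := by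
    apply le_antisymm
    · exact limsup_le_of_le hbdd'.isCoboundedUnder_flip (Eventually.of_forall hle)
    · refine le_of_forall_sub_le fun ε hε => ?_
      exact le_limsup_of_frequently_le ((hhigh ε hε).mono fun n hn => hn.le) hbdd
  have hinf' : liminf (fun n => lazyProb S w5 n) atTop ≤ 31 / 32 :=
    liminf_le_of_frequently_le (hlow.mono fun n hn => hn.le) hbdd'
  refine ⟨G, inferInstance, S, w5, S_finite, ?_, ?_, hinf', hsup, hlow, hhigh, ?_⟩
  · ext g
    constructor
    · rintro ⟨x, hx⟩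
      refine ⟨(x.2.2, (fun j => !(x.2.1 j)), x.1), ?_⟩
      rw [← stepH_inv, hx]
      simp
    · rintro ⟨x, hx⟩
      refine ⟨(x.2.2, (fun j => !(x.2.1 j)), x.1), ?_⟩
      rw [← stepH_inv, hx]
      simp
  · exact Subgroup.closure_closure_coe_preimage
  · rintro ⟨l, hl⟩
    rw [hl.limsup_eq] at hsup
    rw [hl.liminf_eq, hsup] at hinf'
    norm_num at hinf'

end Pool.Agent.Results.MP_6a29fd_al.LazyLawOscillates
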